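import Pool.Agent.H95.FH.Defs

set_option autoImplicit false

open MvPolynomial

namespace H31.FH
open H95.FG H95.FH

/-- Gram determinant and adjugate -/
lemma gram (Q : Matrix (Fin 3) (Fin 3) ℂ) (hQ : Q.IsSymm) (Y U : Fin 3 → ℂ) :
    ∑ k, ∑ l, (crossProduct Y U) k * Q.adjugate k l * (crossProduct Y U) l =
      (∑ k, ∑ l, Y k * Q k l * Y l) * (∑ k, ∑ l, U k * Q k l * U l) -
        (∑ k, ∑ l, Y k * Q k l * U l) ^ 2 := by
  have h10 : Q 1 0 = Q 0 1 := hQ.apply 0 1
  have h20 : Q 2 0 = Q 0 2 := hQ.apply 0 2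
  have h21 : Q 2 1 = Q 1 2 := hQ.apply 1 2
  rw [Matrix.adjugate_fin_three, cross_apply]
  simp [Fin.sum_univ_three, h10, h20, h21]
  ring

lemma swapQ (Q : Matrix (Fin 3) (Fin 3) ℂ) (hQ : Q.IsSymm) (Y U : Fin 3 → ℂ) :
    ∑ k, ∑ l, (Y + U) k * Q k l * (Y + U) l = (∑ k, ∑ l, Y k * Q k l * Y l) +
      (∑ k, ∑ l, U k * Q k l * U l) + 2 * (∑ k, ∑ l, Y k * Q k l * U l) := by
  have h10 : Q 1 0 = Q 0 1 := hQ.apply 0 1
  have h20 : Q 2 0 = Q 0 2 := hQ.apply 0 2
  have h21 : Q 2 1 = Q 1 2 := hQ.apply 1 2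
  simp [Fin.sum_univ_three, h10, h20, h21]
  ring

/-- the plane `Y^⊥`, `Y = a × b` -/
lemma plane (a b z Y : Fin 3 → ℂ) (hY : Y = crossProduct a b) (hY0 : Y ≠ 0) (hz : dt z Y = 0) :
    ∃ α β : ℂ, z = α • a + β • b := by
  obtain ⟨k, hk⟩ := Function.ne_iff.1 hY0
  have e0 : Y 0 = a 1 * b 2 - a 2 * b 1 := by rw [hY, cross_apply]; rfl
  have e1 : Y 1 = a 2 * b 0 - a 0 * b 2 := by rw [hY, cross_apply]; rfl
  have e2 : Y 2 = a 0 * b 1 - a 1 * b 0 := by rw [hY, cross_apply]; rfl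
  unfold dt at hz
  rw [Fin.sum_univ_three, e0, e1, e2] at hz
  have hk' : Y k ≠ 0 := hk
  have fin : ∀ D α β : ℂ, D ≠ 0 → (∀ i, D * z i = α * a i + β * b i) →
      ∃ α β : ℂ, z = α • a + β • b := by
    intro D α β hD h
    refine ⟨α / D, β / D, ?_⟩
    funext i
    have := h i
    simp only [Pi.add_apply, Pi.smul_apply, smul_eq_mul]
    field_simp
    linear_combination this
  fin_cases k
  · refine fin (Y 0) (z 1 * b 2 - z 2 * b 1) (a 1 * z 2 - a 2 * z 1) hk' ?_
    intro i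
    rw [e0]
    fin_cases i
    · simp only [Fin.zero_eta]; linear_combination hz
    · simp only [Fin.mk_one]; ring
    · simp only [Fin.reduceFinMk]; ring
  · refine fin (Y 1) (z 2 * b 0 - z 0 * b 2) (a 2 * z 0 - a 0 * z 2) hk' ?_
    intro i
    rw [e1]
    fin_cases i
    · simp only [Fin.zero_eta]; ring
    · simp only [Fin.mk_one]; linear_combination hz
    · simp only [Fin.reduceFinMk]; ring
  · refine fin (Y 2) (z 0 * b 1 - z 1 * b 0) (a 0 * z 1 - a 1 * z 0) hk' ?_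
    intro i
    rw [e2]
    fin_cases i
    · simp only [Fin.zero_eta]; ring
    · simp only [Fin.mk_one]; ring
    · simp only [Fin.reduceFinMk]; linear_combination hz

/-- restriction to a line -/
noncomputable def ln (a b : Fin 3 → ℂ) : MvPolynomial (Fin 3) ℂ →ₐ[ℂ] Polynomial ℂ :=
  aeval (fun i => Polynomial.C (a i) + Polynomial.X * Polynomial.C (b i))

lemma eval_ln (a b : Fin 3 → ℂ) (f : MvPolynomial (Fin 3) ℂ) (t : ℂ) :
    (ln a b f).eval t = eval (a + t • b) f := by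
  unfold ln
  have h : (Polynomial.evalRingHom t).comp (aeval (fun i => Polynomial.C (a i) +
      Polynomial.X * Polynomial.C (b i)) : MvPolynomial (Fin 3) ℂ →ₐ[ℂ] Polynomial ℂ).toRingHom =
      eval (a + t • b) := by
    apply MvPolynomial.ringHom_ext
    · intro r
      simp
    · intro i
      simp
      ring
  have := congrArg (fun g : MvPolynomial (Fin 3) ℂ →+* ℂ => g f) h
  simpa using this

lemma hom_eval {f : MvPolynomial (Fin 3) ℂ} {n : ℕ} (hf : f.IsHomogeneous n) (c : ℂ)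
    (z : Fin 3 → ℂ) : eval (c • z) f = c ^ n * eval z f := by
  rw [eval_eq, eval_eq, Finset.mul_sum]
  refine Finset.sum_congr rfl fun u hu => ?_
  have hd : u.degree = n := by
    have := hf (mem_support_iff.1 hu)
    rw [Finsupp.degree_eq_weight_one]; exact this
  have h1 : ∏ i ∈ u.support, (c • z) i ^ u i = c ^ n * ∏ i ∈ u.support, z i ^ u i := by
    simp only [Pi.smul_apply, smul_eq_mul, mul_pow, Finset.prod_mul_distrib]
    rw [Finset.prod_pow_eq_pow_sum, ← hd]
    rfl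
  rw [h1]; ring

/-- a homogeneous polynomial which vanishes on `a + t b` for all `t` vanishes on the span -/
lemma span_zero {f : MvPolynomial (Fin 3) ℂ} {n : ℕ} (hf : f.IsHomogeneous n) (a b : Fin 3 → ℂ)
    (h : ln a b f = 0) (α β : ℂ) : eval (α • a + β • b) f = 0 := by
  have h0 : ∀ t : ℂ, eval (a + t • b) f = 0 := fun t => by
    rw [← eval_ln, h, Polynomial.eval_zero]
  have h1 : ∀ s : ℂ, s ≠ 0 → eval (s • a + β • b) f = 0 := by
    intro s hs
    have e : s • a + β • b = s • (a + (s⁻¹ * β) • b) := by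
      rw [smul_add, smul_smul, mul_inv_cancel_left₀ hs]
    rw [e, hom_eval hf, h0, mul_zero]
  by_cases hα : α = 0
  · have h2 : ln (β • b) a f = 0 := by
      apply Polynomial.eq_zero_of_infinite_isRoot
      apply Set.Infinite.mono (s := {s : ℂ | s ≠ 0})
      · intro s hs
        show (ln (β • b) a f).eval s = 0
        rw [eval_ln, add_comm]
        exact h1 s hs
      · exact (Set.finite_singleton (0:ℂ)).infinite_compl
    have h3 := eval_ln (β • b) a f α
    rw [h2, Polynomial.eval_zero, add_comm] at h3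
    exact h3.symm
  · exact h1 α hα

section
variable {q : Fin 3 → Fin 3 → MvPolynomial (Fin 3) ℂ}

lemma adj_hom (hq : ∀ k l, (q k l).IsHomogeneous 2) (k l : Fin 3) :
    ((Matrix.of q).adjugate k l).IsHomogeneous 4 := by
  have h : ∀ a b c d, (q a b * q c d).IsHomogeneous 4 := fun a b c d => (hq a b).mul (hq c d)
  rw [Matrix.adjugate_fin_three]
  fin_cases k <;> fin_cases l <;> simp
  · exact (h _ _ _ _).sub (h _ _ _ _)
  · exact (h _ _ _ _).neg.add (h _ _ _ _)
  · exact (h _ _ _ _).sub (h _ _ _ _)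
  · exact (h _ _ _ _).neg.add (h _ _ _ _)
  · exact (h _ _ _ _).sub (h _ _ _ _)
  · exact (h _ _ _ _).neg.add (h _ _ _ _)
  · exact (h _ _ _ _).sub (h _ _ _ _)
  · exact (h _ _ _ _).neg.add (h _ _ _ _)
  · exact (h _ _ _ _).sub (h _ _ _ _)

/-- bilinear form with polynomial entries -/
noncomputable def bf (M : Matrix (Fin 3) (Fin 3) (MvPolynomial (Fin 3) ℂ)) (x y : Fin 3 → ℂ) :
    MvPolynomial (Fin 3) ℂ := ∑ k, ∑ l, C (x k) * M k l * C (y l)

lemma bf_hom {M : Matrix (Fin 3) (Fin 3) (MvPolynomial (Fin 3) ℂ)} {n : ℕ}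
    (h : ∀ k l, (M k l).IsHomogeneous n) (x y : Fin 3 → ℂ) : (bf M x y).IsHomogeneous n := by
  refine IsHomogeneous.sum _ _ _ fun k _ => IsHomogeneous.sum _ _ _ fun l _ => ?_
  have := ((isHomogeneous_C (Fin 3) (x k)).mul (h k l)).mul (isHomogeneous_C (Fin 3) (y l))
  simpa using this

lemma eval_bf (M : Matrix (Fin 3) (Fin 3) (MvPolynomial (Fin 3) ℂ)) (x y z : Fin 3 → ℂ) :
    eval z (bf M x y) = ∑ k, ∑ l, x k * eval z (M k l) * y l := by
  simp [bf]

end

theorem t_SQB (hQF : S_QF) (hDETQ : S_DETQ) (hRO : S_RO) (hPART : S_PART) (hGRO : S_GRO)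
    (hSQA : S_SQA) (hADJ : S_ADJ) (hBAS : S_BAS) : S_SQB := by
  intro m p A hc hex
  obtain ⟨hsym, hAA, q, hq, hqe⟩ := hQF m p A hc
  have hdet := hDETQ m p A hc hex
  obtain ⟨z1, hz1⟩ := hex
  obtain ⟨-, hev, -, -, -, -, -, hroot⟩ := hBAS m 2 p A hc
  have hz10 : z1 ≠ 0 := by
    rintro rfl
    apply hz1.1.1
    have := hev 0 0
    rw [zero_smul] at this
    rw [this]
    simp
  obtain ⟨Y1, hY1⟩ := hroot z1 hz10
  obtain ⟨Y2, -, hY2, -, -, -, -, -, hnz⟩ := hPART m p A hc z1 Y1 hz1 hY1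
  -- adjugate entries
  have hadj : ∀ z k l, eval z ((Matrix.of q).adjugate k l) = (QQ A z).adjugate k l := by
    intro z k l
    have h1 := congrFun (congrFun (RingHom.map_adjugate (eval z) (Matrix.of q)) k) l
    have h2 : (eval z).mapMatrix (Matrix.of q) = QQ A z := by
      ext k l
      simp [hqe]
    rw [h2] at h1
    exact h1
  set c : Fin 3 → ℂ := crossProduct Y1 Y2 with hcdef
  set F : MvPolynomial (Fin 3) ℂ := - bf (Matrix.of q).adjugate c c with hF
  have hFe : ∀ z, eval z F = - ∑ k, ∑ l, c k * (QQ A z).adjugate k l * c l := by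
    intro z
    rw [hF, map_neg, eval_bf]
    simp only [hadj]
  have hFh : F.IsHomogeneous 4 := (bf_hom (adj_hom hq) c c).neg
  have hF1 : eval z1 F ≠ 0 := by
    rw [hFe, hcdef, gram _ (hsym z1)]
    rw [← hAA, ← hAA, hY1.2.2, hY2.2.2]
    have h1 := swapQ _ (hsym z1) Y1 Y2
    rw [← hAA, ← hAA, ← hAA, hY1.2.2, hY2.2.2] at h1
    have h2 : (∑ k, ∑ l, Y1 k * QQ A z1 k l * Y2 l) ≠ 0 := by
      intro h
      rw [h] at h1
      apply hnz
      rw [h1]; ring
    simpa using h2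
  obtain ⟨ε, hε, hgr⟩ := hGRO m 2 p A hc z1 hz1
  obtain ⟨δ, hδ, hro⟩ := hRO m p A hc z1 Y1 ε hε hz1 hY1
  -- the direction `v0`
  obtain ⟨k0, hk0⟩ := Function.ne_iff.1 hz10
  have hk0' : z1 k0 ≠ 0 := hk0
  set w : Fin 3 → ℂ := Pi.single k0 (-(z1 k0)⁻¹) with hw
  have hzw : z1 0 * w 0 + z1 1 * w 1 + z1 2 * w 2 = -1 := by
    have : ∑ k, z1 k * w k = -1 := by
      rw [hw, Finset.sum_eq_single k0]
      · rw [Pi.single_eq_same]; field_simp
      · intro b _ hb
        rw [Pi.single_eq_of_ne hb, mul_zero]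
      · simp
    rwa [Fin.sum_univ_three] at this
  set v0 : Fin 3 → ℂ := crossProduct w Y1 with hv0
  have hzY : z1 0 * Y1 0 + z1 1 * Y1 1 + z1 2 * Y1 2 = 0 := by
    have := hY1.2.1
    unfold dt at this
    rwa [Fin.sum_univ_three] at this
  have hcr : crossProduct z1 v0 = Y1 := by
    rw [hv0, cross_apply, cross_apply]
    funext i
    fin_cases i
    · simp; linear_combination w 0 * hzY - Y1 0 * hzw
    · simp; linear_combination w 1 * hzY - Y1 1 * hzw
    · simp; linear_combination w 2 * hzY - Y1 2 * hzw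
  have hcont : Continuous (fun v : Fin 3 → ℂ => crossProduct z1 v) :=
    (crossProduct z1).continuous_of_finiteDimensional
  obtain ⟨η, hη, hclose⟩ := Metric.continuous_iff.1 hcont v0 δ hδ
  obtain ⟨σ, hσ⟩ := hSQA F z1 v0 η hη hFh hF1 (by
    intro v hv
    obtain ⟨Y, hYdef⟩ : ∃ Y : Fin 3 → ℂ, Y = crossProduct z1 v := ⟨_, rfl⟩
    have hYY : ‖Y - Y1‖ < δ := by
      have := hclose v (by rw [dist_eq_norm]; exact hv)
      rw [dist_eq_norm, hcr] at this
      rw [hYdef]; exact this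
    obtain ⟨z, hzc, hzr⟩ := hro Y hYY
    have hzg := hgr z hzc
    obtain ⟨U, -, hU, -, -, -, -, hUz, hUn⟩ := hPART m p A hc z Y hzg hzr
    obtain ⟨α, β, hzab⟩ := plane z1 v z Y hYdef hzr.1 hzr.2.1
    have hperp : ∀ t : ℂ, dt (z1 + t • v) Y = 0 := by
      intro t
      unfold dt
      rw [hYdef, cross_apply, Fin.sum_univ_three]
      simp
      ring
    set Bp : Polynomial ℂ := ln z1 v (bf (Matrix.of q) Y U) with hBp
    set Cp : Polynomial ℂ := ln z1 v (bf (Matrix.of q).adjugate c (crossProduct Y U)) with hCp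
    have hkey : Cp ^ 2 = ln z1 v F * Bp ^ 2 := by
      apply Polynomial.funext
      intro t
      rw [Polynomial.eval_pow, Polynomial.eval_mul, Polynomial.eval_pow, hCp, hBp, eval_ln,
        eval_ln, eval_ln, eval_bf, eval_bf, hFe]
      simp only [hadj]
      have h1 := hADJ (QQ A (z1 + t • v)) (hsym _) (hdet _) Y U c
      rw [← hAA, ← hAA, hUz _ (hperp t)] at h1
      rw [h1]
      simp only [Matrix.of_apply, hqe]
      ring
    have hB0 : Bp ≠ 0 := by
      intro h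
      have h1 := span_zero (bf_hom (M := Matrix.of q) hq Y U) z1 v h α β
      rw [← hzab, eval_bf] at h1
      simp only [Matrix.of_apply, hqe] at h1
      apply hUn
      rw [hAA, swapQ _ (hsym z), ← hAA, ← hAA, hzr.2.2, hU.2.2, h1]
      ring
    have hdvd : Bp ∣ Cp := by
      rw [← IsIntegrallyClosed.pow_dvd_pow_iff (n := 2) (by norm_num)]
      exact ⟨ln z1 v F, by rw [hkey]; ring⟩
    obtain ⟨g, hg⟩ := hdvd
    refine ⟨g, fun t => ?_⟩
    have h2 : ln z1 v F = g ^ 2 := by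
      have h3 : Bp ^ 2 * (ln z1 v F) = Bp ^ 2 * g ^ 2 := by
        rw [← mul_pow, ← hg, hkey]; ring
      exact mul_left_cancel₀ (pow_ne_zero 2 hB0) h3
    rw [← eval_ln, h2, Polynomial.eval_pow])
  refine ⟨c, σ, ?_, fun z => ?_⟩
  · rintro rfl
    apply hF1
    rw [hσ]
    simp
  · rw [← hFe, hσ, map_pow]

end H31.FH
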